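import Pool.Agent.H219.BC.Alg
import Pool.Agent.H219.BC.Round
import Pool.Agent.Y600.DC.NB

/-!
# DOMINATING SET is solvable in polynomial time on balanced chordal graphs (MP_1e64e3_lc)
-/

set_option autoImplicit false

namespace Pool.Agent.Results.MP_1e64e3_lc.PolynomialTime

open Pool.Agent.NPC Pool.Agent.NPC.R671 Pool.Agent.Y600.DC Pool.Agent.H219.BC

variable {n : ℕ}

theorem adj_len (G : SimpleGraph (Fin n)) : (adjMatrix G).length = n := by
  simp [adjMatrix]

theorem close_adj (G : SimpleGraph (Fin n)) (v u : Fin n) :
    close (adjMatrix G) v u = true ↔ Close G v u := by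
  classical
  unfold close Close adjMatrix
  have h1 : (List.ofFn fun i => List.ofFn fun j => decide (G.Adj i j)).getD (v : ℕ) [] =
      List.ofFn fun j => decide (G.Adj v j) := by
    rw [List.getD_eq_getElem _ _ (by simp)]
    simp
  have h2 : (List.ofFn fun j => decide (G.Adj v j)).getD (u : ℕ) false = decide (G.Adj v u) := by
    rw [List.getD_eq_getElem _ _ (by simp)]
    simp
  rw [Bool.or_eq_true, decide_eq_true_iff]
  constructor
  · rintro (h | h)
    · exact Or.inl (Fin.ext h)
    · right
      rw [h1, h2] at h
      exact of_decide_eq_true h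
  · rintro (h | h)
    · exact Or.inl (by rw [h])
    · right
      rw [h1, h2]
      exact decide_eq_true h

theorem loads_getD (M : List (List Bool)) (w : List ℕ) (u : ℕ) (hu : u < M.length) :
    (loads M w).getD u 0 = loadL M w u := by
  unfold loads
  rw [List.getD_eq_getElem _ _ (by simpa using hu)]
  simp

/-- the chosen vertex has maximum load -/
theorem best_spec (M : List (List Bool)) (w : List ℕ) (hM : 0 < M.length) :
    best M w < M.length ∧ ∀ u < M.length, loadL M w u ≤ loadL M w (best M w) := by
  have hall : ∀ u < M.length, ((loads M w).all (fun x => decide (x ≤ (loads M w).getD u 0)) = true ↔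
      ∀ u' < M.length, loadL M w u' ≤ loadL M w u) := by
    intro u hu
    rw [List.all_eq_true, loads_getD M w u hu]
    constructor
    · intro h u' hu'
      simpa using h (loadL M w u') (by
        unfold loads
        exact List.mem_map.2 ⟨u', List.mem_range.2 hu', rfl⟩)
    · intro h x hx
      unfold loads at hx
      obtain ⟨u', hu', rfl⟩ := List.mem_map.1 hx
      simpa using h u' (List.mem_range.1 hu')
  obtain ⟨u0, hu0, hmax⟩ := Finset.exists_max_image (Finset.range M.length) (loadL M w)
    ⟨0, Finset.mem_range.2 hM⟩
  set l := (List.range M.length).filter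
    (fun u => (loads M w).all (fun x => decide (x ≤ (loads M w).getD u 0))) with hl
  have hmem : u0 ∈ l := by
    rw [hl, List.mem_filter]
    refine ⟨List.mem_range.2 (Finset.mem_range.1 hu0), ?_⟩
    rw [hall u0 (Finset.mem_range.1 hu0)]
    exact fun u' hu' => hmax u' (Finset.mem_range.2 hu')
  have hne : l ≠ [] := List.ne_nil_of_mem hmem
  have hb : best M w ∈ l := by
    unfold best
    rw [← hl, List.head?_eq_some_head hne, Option.getD_some]
    exact List.head_mem hne
  rw [hl, List.mem_filter] at hb
  have h1 := List.mem_range.1 hb.1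
  exact ⟨h1, (hall _ h1).1 hb.2⟩

/-- the picks of the algorithm -/
def thePick (G : List (List Bool)) (n : ℕ) (hn : 0 < n) (t : ℕ) : Fin n :=
  if h : best G (stateS G t).1 < n then ⟨best G (stateS G t).1, h⟩ else ⟨0, hn⟩

theorem thePick_val (G : SimpleGraph (Fin n)) (hn : 0 < n) (t : ℕ) :
    ((thePick (adjMatrix G) n hn t : Fin n) : ℕ) = best (adjMatrix G) (stateS (adjMatrix G) t).1 := by
  have h := (best_spec (adjMatrix G) (stateS (adjMatrix G) t).1 (by rw [adj_len]; exact hn)).1
  rw [adj_len] at h
  unfold thePick
  rw [dif_pos h]

open Classical in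
/-- the meaning of the state -/
theorem state_eq (G : SimpleGraph (Fin n)) (hn : 0 < n) (t : ℕ) : ∀ v : Fin n,
    (stateS (adjMatrix G) t).1.getD v 0 = (2 * n + 1) ^ cnt G (thePick (adjMatrix G) n hn) t v *
      (2 * n + 2) ^ (t - cnt G (thePick (adjMatrix G) n hn) t v) ∧
    (stateS (adjMatrix G) t).2.getD v 0 = cnt G (thePick (adjMatrix G) n hn) t v := by
  induction t with
  | zero =>
    intro v
    have hv : (v : ℕ) < (adjMatrix G).length := by rw [adj_len]; exact v.2
    constructor
    · simp only [stateS, initS, Function.iterate_zero, id_eq]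
      rw [List.getD_eq_getElem _ _ (by simpa using hv)]
      simp [cnt]
    · simp only [stateS, initS, Function.iterate_zero, id_eq]
      rw [List.getD_eq_getElem _ _ (by simpa using hv)]
      simp [cnt]
  | succ t ih =>
    intro v
    obtain ⟨h1, h2⟩ := ih v
    have hv : (v : ℕ) < (adjMatrix G).length := by rw [adj_len]; exact v.2
    have hs : stateS (adjMatrix G) (t + 1) = stepS (adjMatrix G) (stateS (adjMatrix G) t) := by
      unfold stateS; rw [Function.iterate_succ_apply']
    have hc := close_adj G v (thePick (adjMatrix G) n hn t)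
    rw [thePick_val G hn t] at hc
    have hle := cnt_le G (thePick (adjMatrix G) n hn) t v
    rw [hs, cnt_succ]
    constructor
    · simp only [stepS, newW]
      rw [List.getD_eq_getElem _ _ (by simpa using hv)]
      simp only [List.getElem_map, List.getElem_range, h1, adj_len]
      by_cases h : Close G v (thePick (adjMatrix G) n hn t)
      · rw [hc.2 h, if_pos h, cond_true]
        have : t + 1 - (cnt G (thePick (adjMatrix G) n hn) t v + 1) =
          t - cnt G (thePick (adjMatrix G) n hn) t v := by omega
        rw [this]
        ring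
      · have h' : close (adjMatrix G) v (best (adjMatrix G) (stateS (adjMatrix G) t).1) = false := by
          rw [Bool.eq_false_iff]
          exact fun h'' => h (hc.1 h'')
        rw [h', if_neg h, cond_false]
        have : t + 1 - (cnt G (thePick (adjMatrix G) n hn) t v + 0) =
          t - cnt G (thePick (adjMatrix G) n hn) t v + 1 := by omega
        rw [this]
        ring
    · simp only [stepS, newC]
      rw [List.getD_eq_getElem _ _ (by simpa using hv)]
      simp only [List.getElem_map, List.getElem_range, h2]
      by_cases h : Close G v (thePick (adjMatrix G) n hn t)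
      · rw [hc.2 h, if_pos h, cond_true]
      · have h' : close (adjMatrix G) v (best (adjMatrix G) (stateS (adjMatrix G) t).1) = false := by
          rw [Bool.eq_false_iff]
          exact fun h'' => h (hc.1 h'')
        rw [h', if_neg h, cond_false]
        rfl

open Classical in
theorem load_state (G : SimpleGraph (Fin n)) (hn : 0 < n) (t : ℕ) (u : Fin n) :
    load G (thePick (adjMatrix G) n hn) t u = loadL (adjMatrix G) (stateS (adjMatrix G) t).1 u := by
  have hlist : ∀ f : ℕ → ℕ, ((List.range n).map f).sum = ∑ i : Fin n, f i := by
    intro f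
    rw [← Finset.sum_range]
    rfl
  unfold load loadL
  rw [adj_len, Finset.sum_filter, hlist]
  refine Finset.sum_congr rfl fun v _ => ?_
  have hc := close_adj G v u
  by_cases h : Close G v u
  · rw [if_pos h, hc.2 h, cond_true, (state_eq G hn t v).1]
  · have h' : close (adjMatrix G) v u = false := by
      rw [Bool.eq_false_iff]
      exact fun h'' => h (hc.1 h'')
    rw [if_neg h, h', cond_false]

/-- **The algorithm.** -/
theorem alg : S_ALG := by
  have hpoly : Poly (fun x : List Bool =>
      (match unbits (List (List Bool) × ℕ) x with | none => false | some p => ans p : Bool)) :=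
    (Poly.optCases (o := fun x : List Bool => unbits (List (List Bool) × ℕ) x) poly_unbits
      (NPC.Poly.const false) (h := fun _ p => ans p) (poly_ans.comp (Poly.snd Poly.id))).congr
      fun x => by cases unbits (List (List Bool) × ℕ) x <;> rfl
  refine ⟨_, polyTime_of_poly hpoly, ?_, ?_⟩
  · intro G k
    simp only [unbits_bits]
    simp [ans, adj_len]
  · intro n G k hn
    refine ⟨thePick (adjMatrix G) n hn, ?_, ?_⟩
    · intro t _ u
      rw [load_state, load_state, thePick_val]
      refine (best_spec (adjMatrix G) (stateS (adjMatrix G) t).1 (by rw [adj_len]; exact hn)).2 u ?_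
      rw [adj_len]; exact u.2
    · simp only [unbits_bits, ans, adj_len, List.cons.injEq, and_true]
      rw [List.all_eq_true]
      constructor
      · intro h v
        have := h v (List.mem_range.2 v.2)
        rw [decide_eq_true_iff, (state_eq G hn (rounds n) v).2] at this
        exact this
      · intro h x hx
        rw [List.mem_range] at hx
        rw [decide_eq_true_iff, (state_eq G hn (rounds n) ⟨x, hx⟩).2]
        exact h ⟨x, hx⟩

/-- **DOMINATING SET is solvable in polynomial time on balanced chordal graphs.** -/
theorem result : ∃ A : List Bool → List Bool, PolyTime A ∧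
    ∀ (n : ℕ) (G : SimpleGraph (Fin n)) (k : ℕ), Chordal G → Balanced G →
      (A (bits (adjMatrix G, k)) = [true] ↔ ∃ D : Finset (Fin n), D.card ≤ k ∧ Dominating G D) := by
  classical
  obtain ⟨A, hA, hA0, hA1⟩ := alg
  refine ⟨A, hA, fun n G k hc hb => ?_⟩
  rcases Nat.eq_zero_or_pos n with rfl | hn
  · refine ⟨fun _ => ⟨∅, by simp, fun v => v.elim0⟩, fun _ => hA0 G k⟩
  obtain ⟨pick, hg, hA2⟩ := hA1 n G k hn
  rw [hA2]
  constructor
  · intro h
    -- rounding
    obtain ⟨v0, -, hv0⟩ := Finset.exists_min_image (Finset.univ : Finset (Fin n))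
      (cnt G pick (rounds n)) ⟨⟨0, hn⟩, Finset.mem_univ _⟩
    set m := cnt G pick (rounds n) v0 with hm
    have hm1 : 1 ≤ m := by
      have := h v0
      rw [← hm] at this
      rcases Nat.eq_zero_or_pos m with h0 | h0
      · rw [h0] at this; omega
      · exact h0
    have hnb := nb (Fin n) G hc hb
    have hR : RelBalanced (fun v x : Fin n => Close G v x) := by
      intro r ho hr e x hx hpat
      refine hnb r ho hr e x ?_ hx hpat
      intro i j hij
      have : NeZero r := ⟨by omega⟩
      have h1 : ∀ l, (l = i ∨ l = i + 1) ↔ (l = j ∨ l = j + 1) := by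
        intro l
        rw [← hpat i l, ← hpat j l, hij]
      by_contra hne
      have h2 : i = j + 1 := ((h1 i).1 (Or.inl rfl)).resolve_left hne
      have h3 : j = i + 1 := ((h1 j).2 (Or.inl rfl)).resolve_left (Ne.symm hne)
      rw [h2] at h3
      have h4 : ((2 : ℕ) : ZMod r) = 0 := by
        have : j + (1 + 1) = j + 0 := by rw [add_zero, ← add_assoc]; exact h3.symm
        have := add_left_cancel this
        rw [← this]; norm_num
      rw [ZMod.natCast_eq_zero_iff] at h4
      have := Nat.le_of_dvd (by norm_num) h4
      omega
    let a : Fin n → ℕ := fun x => ((Finset.range (rounds n)).filter (fun t => pick t = x)).card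
    have hsum : ∀ s : Finset (Fin n), ∑ x ∈ s, a x =
        ((Finset.range (rounds n)).filter (fun t => pick t ∈ s)).card := by
      intro s
      rw [Finset.card_eq_sum_card_fiberwise (f := pick) (t := s) (by
        intro t ht
        exact (Finset.mem_filter.1 (Finset.mem_coe.1 ht)).2)]
      refine Finset.sum_congr rfl fun x hx => ?_
      rw [Finset.filter_filter]
      change ((Finset.range (rounds n)).filter (fun t => pick t = x)).card = _
      congr 1
      ext t
      simp only [Finset.mem_filter, Finset.mem_range]
      constructor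
      · rintro ⟨h1, h2⟩
        exact ⟨h1, by rw [h2]; exact hx, h2⟩
      · rintro ⟨h1, h2, h3⟩
        exact ⟨h1, h3⟩
    obtain ⟨D, hD, hD2⟩ := Pool.Agent.H219.BC.round (Fin n) (Fin n) (fun v x => Close G v x) hR a m
      hm1 (by
        intro v
        refine (hv0 v (Finset.mem_univ _)).trans (le_of_eq ?_)
        rw [hsum]
        unfold cnt
        congr 1
        ext t
        simp)
    refine ⟨D, ?_, ?_⟩
    · have h1 : ∑ x, a x = rounds n := by
        rw [hsum]
        simp
      rw [h1] at hD2
      have h2 := h v0
      rw [← hm] at h2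
      by_contra h3
      have h4 : k + 1 ≤ D.card := by omega
      have h5 := Nat.mul_le_mul_left m h4
      rw [mul_comm m (k + 1)] at h5
      omega
    · intro v hv
      obtain ⟨x, hx, h1 | h1⟩ := hD v
      · exact absurd (h1 ▸ hx) hv
      · exact ⟨x, hx, h1⟩
  · rintro ⟨D, hD, hdom⟩ v
    exact (mwu n G pick hg D hdom v).trans_le (Nat.mul_le_mul_right _ (by omega))

end Pool.Agent.Results.MP_1e64e3_lc.PolynomialTime
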